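import Pool.Agent.T6.H3.FR.Conv

/-!
# The lower bound for the number of Goldbach representations in ALL residue classes, in particular for the
multiples, of the moduli up to `x ^ (4 / 5 - ρ)` which are not divisible by one of few large integers

There is a set `D` of at most `(log x) ^ c` integers, all of them larger than any given power of `log x`, such that
for every modulus `q ≤ x ^ (4 / 5 - ρ)` which is not divisible by a member of `D`, and EVERY residue class `a`
modulo `q` (for instance `a = 0`: the multiples of `q`), all but at most `x / (q (log x)^A)` of the even integers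
`n ≤ x`, `n ≡ a (mod q)`, satisfy the lower bound of the problem with `δ = 1 / 8`: they have at least one
eighth of the number of representations which Hardy and Littlewood predict.

Definitions used (in `Pool.Agent.H560R3.GB`): `g n`: the number of ordered pairs of primes `(p₁, p₂)` with
`p₁ + p₂ = n`; `HL n`: the prediction `sing n * (n / (log n)²)` of Hardy and Littlewood, where
`sing n = 2 C₂ ∏_{p ∣ n, p > 2} (p - 1) / (p - 2)` and `C₂ = ∏_{p > 2} (1 - 1 / (p - 1) ^ 2)`.

Proof (`T6/H3/FR`, `T6/H3/FF`). Let `G(n) = log N (1 - ω(n))`, where `ω(n)` is the number of the prime factors of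
`n` up to `√N`, if `n ≤ N` has no prime factors up to `N ^ (1 / 5)`, and `G(n) = 0` otherwise. Then `Λ(n) ≥ G(n)` up
to a factor near `1`, and so `Λ * Λ ≥ Λ * G`, and the mean value of `G` is larger than `1 / 8`. The difference of `G`
and a sieve model is a combination of smooth sums and of bilinear sums with a variable between `N ^ (1 / 10)` and
`N ^ (1 / 5)`. A primitive character is bad if its sum with the weights `G` is large; then its sum over one of the
short classes of this variable is large too, and so, by the large sieve for the sixteenth powers of the short sums,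
there are at most `(log N) ^ c` bad characters of conductors up to `N ^ (4 / 5)`. The members of `D` are the bad
conductors larger than a high power of `log N`, divided by small factors. For a modulus `q` which is not divisible
by a member of `D` no character of a large conductor is bad, so that the mean square of the error term in EVERY
residue class modulo `q` is small.
-/

set_option autoImplicit false

namespace Pool.Agent.Results.MP_dd84fd_nt.AllClassesFourFifths

open Finset
open Pool.Agent.H560R3.GB (g HL sing)
open Pool.Agent.W93.PG (cnt)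

/-- The even integers `n ≡ a (mod q)` with `0 < n ≤ x` for which `g n` is less than one eighth of the
prediction `HL n` of Hardy and Littlewood, or less than `(1 / 8) n / (log n)²`. -/
def exceptional (x : ℝ) (q : ℕ) (a : ℤ) : Set ℕ :=
  {n : ℕ | 0 < n ∧ (n : ℝ) ≤ x ∧ 2 ∣ n ∧ (n : ℤ) ≡ a [ZMOD q] ∧
    ¬ ((1 / 8) * HL n ≤ g n ∧ (1 / 8) * ((n : ℝ) / Real.log n ^ 2) ≤ g n)}

theorem cnt_eq (n : ℕ) : cnt n 0 n = g n := by
  unfold cnt g
  refine card_bij (fun p _ => (p, n - p)) ?_ ?_ ?_
  · intro p hp
    rw [mem_filter, mem_Ioc] at hp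
    rw [mem_filter, HasAntidiagonal.mem_antidiagonal]
    exact ⟨by simp only; omega, hp.2⟩
  · intro p _ p' _ h
    exact congrArg Prod.fst h
  · rintro ⟨a, b⟩ h
    rw [mem_filter, HasAntidiagonal.mem_antidiagonal] at h
    obtain ⟨h1, h2, h3⟩ := h
    simp only at h1 h2 h3
    have ha := h2.pos
    refine ⟨a, ?_, ?_⟩
    · rw [mem_filter, mem_Ioc]
      refine ⟨⟨ha, by omega⟩, h2, ?_⟩
      have : n - a = b := by omega
      rw [this]
      exact h3
    · have : n - a = b := by omega
      simp [this]

/-- For all `ρ > 0` and `A` there is `c` such that for all `B` and all sufficiently large real `x` there is a finite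
set `D` of at most `(log x) ^ c` integers, all of them larger than `(log x) ^ B`, such that for every integer
`1 ≤ q ≤ x ^ (4 / 5 - ρ)` which is not divisible by a member of `D` and for EVERY integer `a`, all but at most
`x / (q (log x)^A)` of the even integers `0 < n ≤ x`, `n ≡ a (mod q)`, satisfy `g n ≥ (1 / 8) HL n` and
`g n ≥ (1 / 8) n / (log n)²`. -/
theorem result (ρ : ℝ) (hρ : 0 < ρ) (A : ℕ) :
    ∃ c : ℕ, ∀ B : ℕ, ∃ x₀ : ℝ, ∀ x : ℝ, x₀ ≤ x → ∃ D : Finset ℕ, (D.card : ℝ) ≤ Real.log x ^ c ∧
      (∀ d ∈ D, Real.log x ^ B < (d : ℝ)) ∧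
      ∀ q : ℕ, 1 ≤ q → (q : ℝ) ≤ x ^ (4 / 5 - ρ) → (∀ d ∈ D, ¬ d ∣ q) → ∀ a : ℤ,
        (exceptional x q a).Finite ∧ ((exceptional x q a).ncard : ℝ) ≤ x / (q * Real.log x ^ A) := by
  have h := Pool.Agent.T6.H3.FR.class_few_reg4
    (fun n => (1 / 8) * HL n ≤ g n ∧ (1 / 8) * ((n : ℝ) / Real.log n ^ 2) ≤ g n) 0
    ⟨1, fun n hn _ hw => ?_⟩ ρ hρ A
  · exact h
  · have h1 := hw 0 n (by omega) le_rfl (by simp)
    rw [cnt_eq] at h1
    have h2 := Pool.Agent.R460.GS.one_le_sing n
    have h3 : (0 : ℝ) ≤ (n : ℝ) / Real.log n ^ 2 := by positivity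
    have h4 : (1 / 8) * HL n ≤ g n := by
      refine le_trans (le_of_eq ?_) h1
      unfold Pool.Agent.H560R3.GB.HL
      push_cast
      ring
    refine ⟨h4, le_trans ?_ h4⟩
    unfold Pool.Agent.H560R3.GB.HL
    nlinarith

end Pool.Agent.Results.MP_dd84fd_nt.AllClassesFourFifths
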