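import Pool.Agent.T6.H3.FF.Conv

/-!
# The lower bound for the number of Goldbach representations in the residue classes of EVERY modulus `q ≤ x ^ (4 / 5 - ρ)`

For every modulus `q ≤ x ^ (4 / 5 - ρ)`, without any exceptional moduli, and every residue class `a` modulo
`q` with `gcd(a, q) ≤ (log x)^T`, all but at most `x / (q (log x)^A)` of the even integers `n ≤ x`,
`n ≡ a (mod q)`, satisfy the lower bound of the problem with `δ = 1 / 8`: they have at least one eighth
of the number of representations which Hardy and Littlewood predict.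

Definitions used (in `Pool.Agent.H560R3.GB`): `g n`: the number of ordered pairs of primes `(p₁, p₂)` with
`p₁ + p₂ = n`; `HL n`: the prediction `sing n * (n / (log n)²)` of Hardy and Littlewood, where
`sing n = 2 C₂ ∏_{p ∣ n, p > 2} (p - 1) / (p - 2)` and `C₂ = ∏_{p > 2} (1 - 1 / (p - 1) ^ 2)`.

Proof (`T6/H3/FF`). Let `G(n) = log N (1 - ω(n))`, where `ω(n)` is the number of the prime factors of `n` up to
`√N`, if `n ≤ N` has no prime factors up to `N ^ (1 / 5)`, and `G(n) = 0` otherwise. Then `Λ(n) ≥ G(n)` up to a
factor near `1`, since `G(n) ≤ 0` if `n` is not a prime, and so `Λ * Λ ≥ Λ * G`: only one factor is replaced. The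
mean value of `G` is a positive number (at least `14 / 100`, by a numerical computation with rational numbers). By
two applications of Buchstab's identity the difference of `G` and a sieve model is a combination of smooth
sums up to `N ^ (1 / 5)` and of bilinear sums with a variable between `N ^ (1 / 10)` and `N ^ (1 / 5)`, so its sum
over all but few characters modulo `q` is small in mean square near the fractions with small denominators,
and over all characters elsewhere, if `q ≤ N ^ (4 / 5 - ρ)`; for the other factor `Λ` an upper bound of the right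
order, and the correlations with the characters of a large conductor (by Vaughan's identity), are enough. The bad
characters of a large conductor contribute sums over the shifted classes `a - l`, which are small if `gcd(a, q)`
is small: no zero-free region for the characters modulo `q` is needed, and there are no exceptional moduli.
-/

set_option autoImplicit false

namespace Pool.Agent.Results.MP_dd84fd_nt.EveryModulusFourFifths

open Finset
open Pool.Agent.H560R3.GB (g HL sing)
open Pool.Agent.W93.PG (cnt)

/-- The even integers `n ≡ a (mod q)` with `0 < n ≤ x` for which `g n` is less than one eighth of the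
prediction `HL n` of Hardy and Littlewood, or less than `(1 / 8) n / (log n)²`. -/
def exceptional (x : ℝ) (q : ℕ) (a : ℤ) : Set ℕ :=
  {n : ℕ | 0 < n ∧ (n : ℝ) ≤ x ∧ 2 ∣ n ∧ (n : ℤ) ≡ a [ZMOD q] ∧
    ¬ ((1 / 8) * HL n ≤ g n ∧ (1 / 8) * ((n : ℝ) / Real.log n ^ 2) ≤ g n)}

theorem cnt_eq (n : ℕ) : cnt n 0 n = g n := by
  unfold cnt g
  refine card_bij (fun p _ => (p, n - p)) ?_ ?_ ?_
  · intro p hp
    rw [mem_filter, mem_Ioc] at hp
    rw [mem_filter, HasAntidiagonal.mem_antidiagonal]
    exact ⟨by simp only; omega, hp.2⟩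
  · intro p _ p' _ h
    exact congrArg Prod.fst h
  · rintro ⟨a, b⟩ h
    rw [mem_filter, HasAntidiagonal.mem_antidiagonal] at h
    obtain ⟨h1, h2, h3⟩ := h
    simp only at h1 h2 h3
    have ha := h2.pos
    refine ⟨a, ?_, ?_⟩
    · rw [mem_filter, mem_Ioc]
      refine ⟨⟨ha, by omega⟩, h2, ?_⟩
      have : n - a = b := by omega
      rw [this]
      exact h3
    · have : n - a = b := by omega
      simp [this]

/-- For all `ρ > 0`, `A` and `T` and all sufficiently large real `x`: for EVERY integer
`1 ≤ q ≤ x ^ (4 / 5 - ρ)` and every integer `a` with `gcd(a, q) ≤ (log x)^T`, all but at most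
`x / (q (log x)^A)` of the even integers `0 < n ≤ x`, `n ≡ a (mod q)`, satisfy `g n ≥ (1 / 8) HL n` and
`g n ≥ (1 / 8) n / (log n)²`. -/
theorem result (ρ : ℝ) (hρ : 0 < ρ) (A T : ℕ) :
    ∃ x₀ : ℝ, ∀ x : ℝ, x₀ ≤ x → ∀ q : ℕ, 1 ≤ q → (q : ℝ) ≤ x ^ (4 / 5 - ρ) →
      ∀ a : ℤ, (Int.gcd a q : ℝ) ≤ Real.log x ^ T →
        (exceptional x q a).Finite ∧ ((exceptional x q a).ncard : ℝ) ≤ x / (q * Real.log x ^ A) := by
  have h := Pool.Agent.T6.H3.FF.class_few4
    (fun n => (1 / 8) * HL n ≤ g n ∧ (1 / 8) * ((n : ℝ) / Real.log n ^ 2) ≤ g n) 0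
    ⟨1, fun n hn _ hw => ?_⟩ ρ hρ A T
  · exact h
  · have h1 := hw 0 n (by omega) le_rfl (by simp)
    rw [cnt_eq] at h1
    have h2 := Pool.Agent.R460.GS.one_le_sing n
    have h3 : (0 : ℝ) ≤ (n : ℝ) / Real.log n ^ 2 := by positivity
    have h4 : (1 / 8) * HL n ≤ g n := by
      refine le_trans (le_of_eq ?_) h1
      unfold Pool.Agent.H560R3.GB.HL
      push_cast
      ring
    refine ⟨h4, le_trans ?_ h4⟩
    unfold Pool.Agent.H560R3.GB.HL
    nlinarith

end Pool.Agent.Results.MP_dd84fd_nt.EveryModulusFourFifths
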