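import Mathlib
import Pool.Agent.T6.H3.TE.Fin
import Pool.Agent.T6.H3.TE.Lam
import Pool.Agent.T6.H3.TE.Mom

/-!
# Goldbach's equation or one of two others: almost all integers of every window, right order

For all `ε > 0` and `l > 0` there is `δ > 0` such that for all large `N` and every `H` with
`l * log N ≤ H ≤ N`, all but at most `ε * H` of the integers `M` with `N < M ≤ N + H` have the following
property: at least one of the equations

* `p + q = 2 M`,
* `2 p - q = M + e`,
* `2 p + q = 3 M + e`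

is solvable with at least `δ * M / (log M) ^ 2` primes `p ≤ 2 M`. Here `e = 0` if `M` is odd, and `e` is
`3` or `-3` if `M` is even.

Proof: two of any four classes of linear forms are hit simultaneously by primes, with the right order
of magnitude and with no small prime factors of the other forms, uniformly in the constant terms
(`Pool.Agent.Y827.RO.thmR`); the density Hales-Jewett theorem and a blow-up, which give many families
of centres all whose derived means are bad; and an average over the translates, with the moments of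
the number of integers without small prime factors in short intervals.
-/

set_option autoImplicit false

namespace Pool.Agent.Results.MP_dd84fd_nt.ThreeEquationsAlmostAll

open Finset

/-- the number of the primes `p ≤ 2 M` such that `a * p + b * q = c * M + e` with `q` prime -/
noncomputable def count (a b c e : ℤ) (M : ℕ) : ℕ :=
  {p : ℕ | p ≤ 2 * M ∧ p.Prime ∧
    ∃ q : ℕ, q.Prime ∧ a * (p : ℤ) + b * (q : ℤ) = c * (M : ℤ) + e}.ncard

/-- one of the three equations has at least `δ * M / (log M) ^ 2` solutions -/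
def Good (δ : ℝ) (M : ℕ) : Prop :=
  δ * M / Real.log M ^ 2 ≤ count 1 1 2 0 M ∨
  ∃ e : ℤ, |e| = (if Odd M then 0 else 3) ∧
    (δ * M / Real.log M ^ 2 ≤ count 2 (-1) 1 e M ∨ δ * M / Real.log M ^ 2 ≤ count 2 1 3 e M)

theorem count_sol (a b c e : ℤ) (M : ℕ) :
    (Pool.Agent.T6.H3.TE.sol ((a, b, c), e) M).card = count a b c e M := by
  classical
  unfold Pool.Agent.T6.H3.TE.sol count
  rw [← Set.ncard_coe_finset]
  congr 1
  ext p
  simp only [coe_filter, mem_range, Set.mem_setOf_eq]
  constructor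
  · rintro ⟨h1, h2, h3⟩
    exact ⟨by omega, h2, h3⟩
  · rintro ⟨h1, h2, h3⟩
    exact ⟨by omega, h2, h3⟩

theorem result : ∀ ε : ℝ, 0 < ε → ∀ l : ℝ, 0 < l → ∃ δ : ℝ, 0 < δ ∧ ∃ N₀ : ℕ, ∀ N : ℕ, N₀ ≤ N →
    ∀ H : ℕ, l * Real.log N ≤ H → H ≤ N →
    ({M : ℕ | N < M ∧ M ≤ N + H ∧ ¬ Good δ M}.ncard : ℝ) ≤ ε * H := by
  classical
  intro ε hε l hl
  obtain ⟨K, hK, δ, hδ, hL⟩ := Pool.Agent.T6.H3.TE.lam2 4 1 (by norm_num) (by norm_num)
  obtain ⟨δ', hδ', N₀, h⟩ := Pool.Agent.T6.H3.TE.fin_of K hK δ hδ hL Pool.Agent.T6.H3.TE.momS ε l hε hl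
  refine ⟨δ', hδ', N₀, fun N hN H hH1 hH2 => ?_⟩
  refine le_trans ?_ (h N hN H hH1 hH2)
  rw [← Set.ncard_coe_finset, Nat.cast_le]
  refine Set.ncard_le_ncard ?_ (Finset.finite_toSet _)
  rintro M ⟨h1, h2, h3⟩
  unfold Pool.Agent.T6.H3.TE.NG
  rw [mem_coe, mem_filter, mem_Ioc]
  refine ⟨⟨h1, h2⟩, fun q hq => ?_⟩
  by_contra hcon
  push Not at hcon
  apply h3
  rw [← mul_div_assoc] at hcon
  have hk : |Pool.Agent.T6.H3.TE.kap M| = (if Odd M then 0 else 3) := by
    unfold Pool.Agent.T6.H3.TE.kap
    split_ifs <;> simp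
  unfold Pool.Agent.T6.H3.TE.EQ at hq
  simp only [mem_insert, mem_singleton] at hq
  rcases hq with rfl | rfl | rfl | rfl | rfl
  · left
    rw [count_sol] at hcon
    exact hcon
  · right
    rw [count_sol] at hcon
    exact ⟨_, hk, Or.inl hcon⟩
  · right
    rw [count_sol] at hcon
    exact ⟨_, by rw [abs_neg]; exact hk, Or.inl hcon⟩
  · right
    rw [count_sol] at hcon
    exact ⟨_, hk, Or.inr hcon⟩
  · right
    rw [count_sol] at hcon
    exact ⟨_, by rw [abs_neg]; exact hk, Or.inr hcon⟩

end Pool.Agent.Results.MP_dd84fd_nt.ThreeEquationsAlmostAll
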