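import Mathlib
import Pool.Agent.T6.H3.TE.Prog
import Pool.Agent.T6.H3.TE.Lam

/-!
# Goldbach's equation or one of two others: almost all members of every short arithmetic progression

There is `C` such that for every `ε > 0` there is `h₁` with the following property. For all large `N`,
every difference `d ≥ 1` with `h₁ * d ≤ N` and every `h ≥ h₁`, all but at most `ε * h` of the members
`M = N + j * d`, `1 ≤ j ≤ h`, of the progression are such that at least one of the equations

* `p + q = 2 M`,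
* `2 p - q = M + e`,
* `2 p + q = 3 M + e`

is solvable with at least `M / (log M) ^ C` primes `p ≤ 2 M`. Here `e = 0` if `M` is odd, and `e` is
`3` or `-3` if `M` is even. The number `h₁` of the members does not depend on `N` and `d`: it may be used
for windows of a bounded length (`d = 1`) and for the multiples `k * d`, `K < k ≤ K + h`, of every integer `d`
(`N = K * d`, `K ≥ h₁`). In particular every large `d` has a bounded multiple for which one of the
equations is solvable.

Proof: two of any four classes of linear forms are hit simultaneously by primes, uniformly in the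
constant terms (`Pool.Agent.Y827.RO.thmR`); the density Hales-Jewett theorem and a blow-up give families of
centres all whose derived means are bad.
-/

set_option autoImplicit false

namespace Pool.Agent.Results.MP_dd84fd_nt.ThreeEquationsProgressions

open Finset

/-- the number of the primes `p ≤ 2 M` such that `a * p + b * q = c * M + e` with `q` prime -/
noncomputable def count (a b c e : ℤ) (M : ℕ) : ℕ :=
  {p : ℕ | p ≤ 2 * M ∧ p.Prime ∧
    ∃ q : ℕ, q.Prime ∧ a * (p : ℤ) + b * (q : ℤ) = c * (M : ℤ) + e}.ncard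

/-- one of the three equations has at least `M / (log M) ^ C` solutions -/
def Good (C : ℕ) (M : ℕ) : Prop :=
  (M : ℝ) / Real.log M ^ C ≤ count 1 1 2 0 M ∨
  ∃ e : ℤ, |e| = (if Odd M then 0 else 3) ∧
    ((M : ℝ) / Real.log M ^ C ≤ count 2 (-1) 1 e M ∨ (M : ℝ) / Real.log M ^ C ≤ count 2 1 3 e M)

theorem count_sol (a b c e : ℤ) (M : ℕ) :
    (Pool.Agent.T6.H3.TE.sol ((a, b, c), e) M).card = count a b c e M := by
  classical
  unfold Pool.Agent.T6.H3.TE.sol count
  rw [← Set.ncard_coe_finset]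
  congr 1
  ext p
  simp only [coe_filter, mem_range, Set.mem_setOf_eq]
  constructor
  · rintro ⟨h1, h2, h3⟩
    exact ⟨by omega, h2, h3⟩
  · rintro ⟨h1, h2, h3⟩
    exact ⟨by omega, h2, h3⟩

theorem result : ∃ C : ℕ, ∀ ε : ℝ, 0 < ε → ∃ h₁ N₀ : ℕ, ∀ N : ℕ, N₀ ≤ N → ∀ d : ℕ, 1 ≤ d →
    h₁ * d ≤ N → ∀ h : ℕ, h₁ ≤ h →
    ({j : ℕ | 1 ≤ j ∧ j ≤ h ∧ ¬ Good C (N + j * d)}.ncard : ℝ) ≤ ε * h := by
  classical
  obtain ⟨K, hK, δ, -, hL⟩ := Pool.Agent.T6.H3.TE.lam2 4 1 (by norm_num) (by norm_num)
  refine ⟨4 * K + 2, fun ε hε => ?_⟩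
  obtain ⟨h₁, N₀, -, H⟩ := Pool.Agent.T6.H3.TE.prog_fin K hK δ hL ε hε
  refine ⟨h₁, N₀, fun N hN d hd hNd h hh => ?_⟩
  refine le_trans ?_ (H N hN d hd hNd h hh)
  rw [← Set.ncard_coe_finset, Nat.cast_le]
  refine Set.ncard_le_ncard ?_ (Finset.finite_toSet _)
  rintro j ⟨h1, h2, h3⟩
  unfold Pool.Agent.T6.H3.TE.NGP
  rw [mem_coe, mem_filter, mem_Icc]
  refine ⟨⟨h1, h2⟩, ?_⟩
  obtain ⟨M, hM⟩ : ∃ M : ℕ, M = N + j * d := ⟨_, rfl⟩
  rw [← hM] at h3 ⊢
  intro q hq
  by_contra hcon
  push Not at hcon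
  apply h3
  have hk : |Pool.Agent.T6.H3.TE.kap M| = (if Odd M then 0 else 3) := by
    unfold Pool.Agent.T6.H3.TE.kap
    split_ifs <;> simp
  unfold Pool.Agent.T6.H3.TE.EQ at hq
  simp only [mem_insert, mem_singleton] at hq
  rcases hq with rfl | rfl | rfl | rfl | rfl
  · left
    rw [count_sol] at hcon
    exact hcon
  · right
    rw [count_sol] at hcon
    exact ⟨_, hk, Or.inl hcon⟩
  · right
    rw [count_sol] at hcon
    exact ⟨_, by rw [abs_neg]; exact hk, Or.inl hcon⟩
  · right
    rw [count_sol] at hcon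
    exact ⟨_, hk, Or.inr hcon⟩
  · right
    rw [count_sol] at hcon
    exact ⟨_, by rw [abs_neg]; exact hk, Or.inr hcon⟩

end Pool.Agent.Results.MP_dd84fd_nt.ThreeEquationsProgressions
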